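import Pool.Agent.Helper52.Moeller.HOrbit
import Pool.Agent.Helper28.BE.Main
import Pool.Agent.Helper28.BE.FinalBeyond
import Pool.Agent.Helper33.MO.GapE

/-!
# The orbits of a Möller map which stay above `z`

`H` is the generalized Hasse-Syracuse map of the problem. For all coprime `d ≥ 2`, `m ≥ 1` with
`m ≤ d ^ (d / (d - 1))` there is `δ > 0`, with `δ > 1 - η(d, m)` if `m > d`, where `η(d, m) < 1` is
the entropy (Chernoff) exponent of the random walk attached to the map, such that for every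
admissible choice of the residues the number of `n ≤ x` whose whole (defined) orbit stays above `z`
is at most `C x z ^ (-δ)`; and the set `E(d, m, R)` of the problem is finite if and only if the lower
density of these `n` is `o(1 / z)`: the exponent `1` is the critical one.

Structure of the proof.
* `Helper52.Tao`: the Syracuse random variables of the map have Fourier coefficients `O(N ^ (-A))`
  at all frequencies not divisible by `d` (`one_block`, `fourier_decay`); hence these variables are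
  equidistributed at fine scales in total variation (`mixing_step`, `mixing`); hence the
  logarithmic-scale densities of the exceptional set at two consecutive scales differ by
  `O(t ^ (-A))` (`flow`).
* `Helper28.BE.core`: in every interval the integers whose orbits stay up for a bit longer than
  the logarithm of the length of the interval have an exponent strictly below the entropy exponent.
* `Helper28.BE.final_beyond`: iterating over the scales gives the bound.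
* `Helper33.MO`: if the orbit of `y` stays above `K z` then the density of the `n` whose orbit stays above `z` is at
  least `c / y` (from the lower bound `c x / y` for the number of the `n ≤ x` whose orbit passes through `y`
  without going far below `y`), applied to large elements `y` of `E`.
-/

set_option autoImplicit false

namespace Pool.Agent.Helper33.FIN.AlmostAll

open Pool.Agent.Helper68.Moeller Pool.Agent.Helper52.Moeller Pool.Agent.Helper52.Tao Filter Topology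

/-- The positive integers `n ≤ x`, not divisible by `d`, all of whose (defined) iterates under `H`
are greater than `z`. -/
def High (d m : ℕ) (r : ℤ → ℤ) (z x : ℝ) : Set ℤ :=
  {n : ℤ | 0 < n ∧ (n : ℝ) ≤ x ∧ ¬ (d : ℤ) ∣ n ∧
    ∀ k : ℕ, (∀ i < k, r ((H d m r)^[i] n % (d : ℤ)) < (m : ℤ) * (H d m r)^[i] n) →
      z < ((H d m r)^[k] n : ℝ)}

theorem high_subset (d m : ℕ) (r : ℤ → ℤ) (z x : ℝ) :
    High d m r z x ⊆ (Finset.Icc (1 : ℤ) ⌊x⌋ : Finset ℤ) := by
  intro n hn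
  obtain ⟨h1, h2, _⟩ := hn
  rw [Finset.mem_coe, Finset.mem_Icc]
  exact ⟨h1, Int.le_floor.2 h2⟩

theorem card_Icc_floor {x : ℝ} (hx : 0 ≤ x) : ((Finset.Icc (1 : ℤ) ⌊x⌋).card : ℝ) ≤ x := by
  rw [Int.card_Icc]
  have h3 : ((⌊x⌋ + 1 - 1).toNat : ℤ) = ⌊x⌋ := by
    rw [add_sub_cancel_right]
    exact Int.toNat_of_nonneg (Int.floor_nonneg.2 hx)
  calc ((⌊x⌋ + 1 - 1).toNat : ℝ) = ((((⌊x⌋ + 1 - 1).toNat : ℤ)) : ℝ) := by push_cast; rfl
    _ = (⌊x⌋ : ℝ) := by rw [h3]
    _ ≤ x := Int.floor_le x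

theorem ncard_high_le {d m : ℕ} {r : ℤ → ℤ} {z x : ℝ} (hx : 0 ≤ x) :
    ((High d m r z x).ncard : ℝ) ≤ x := by
  have h1 := Set.ncard_le_ncard (high_subset d m r z x) (Finset.finite_toSet _)
  rw [Set.ncard_coe_finset] at h1
  exact le_trans (by exact_mod_cast h1) (card_Icc_floor hx)

/-- A bound for the values of `r`. -/
theorem exists_bound (d : ℕ) (r : ℤ → ℤ) :
    ∃ B : ℕ, 1 ≤ B ∧ ∀ j : ℤ, 0 < j → j < (d : ℤ) → |r j| ≤ B := by
  refine ⟨∑ j ∈ Finset.range d, (r j).natAbs + 1, by omega, fun j hj0 hjd => ?_⟩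
  obtain ⟨i, rfl⟩ := Int.eq_ofNat_of_zero_le hj0.le
  have h1 : (r i).natAbs ≤ ∑ j ∈ Finset.range d, (r j).natAbs :=
    Finset.single_le_sum (f := fun j : ℕ => (r j).natAbs) (fun _ _ => Nat.zero_le _)
      (Finset.mem_range.2 (by omega))
  rw [Int.abs_eq_natAbs]
  push_cast
  have : ((r i).natAbs : ℤ) ≤ ((∑ j ∈ Finset.range d, (r j).natAbs : ℕ) : ℤ) := by
    exact_mod_cast h1
  push_cast at this
  linarith

/-- The case `m < d`: no orbit stays above a constant. -/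
theorem small_m {d m : ℕ} (hd : 2 ≤ d) (hm1 : 1 ≤ m) (hmd : m < d) {r : ℤ → ℤ}
    (hr : Admissible d m r) {B : ℕ} (hB : ∀ j : ℤ, 0 < j → j < (d : ℤ) → |r j| ≤ B)
    {z x : ℝ} (hz : (B : ℝ) ≤ z) : High d m r z x = ∅ := by
  rw [Set.eq_empty_iff_forall_notMem]
  rintro n ⟨h1, h2, h3, h4⟩
  have hdef : ∀ k, (∀ i < k, r ((H d m r)^[i] n % (d : ℤ)) < (m : ℤ) * (H d m r)^[i] n) ∧
      ¬ (d : ℤ) ∣ (H d m r)^[k] n ∧ (H d m r)^[k] n ≤ n - k := by
    intro k
    induction k with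
    | zero => exact ⟨by simp, h3, by simp⟩
    | succ k ih =>
      obtain ⟨i1, i2, i3⟩ := ih
      set y := (H d m r)^[k] n with hy
      have hyz : z < (y : ℝ) := h4 k i1
      have hyB : (B : ℤ) < y := by
        have : (B : ℝ) < (y : ℝ) := lt_of_le_of_lt hz hyz
        exact_mod_cast this
      obtain ⟨e1, e2⟩ := emod_pos hd i2
      have hrB := hB _ e1 e2
      rw [abs_le] at hrB
      have hm' : (1 : ℤ) ≤ m := by exact_mod_cast hm1
      have hmd' : (m : ℤ) + 1 ≤ d := by exact_mod_cast hmd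
      have hy0 : 0 < y := by
        have : (0 : ℤ) ≤ B := by positivity
        omega
      have hdefk : r (y % (d : ℤ)) < (m : ℤ) * y := by nlinarith
      obtain ⟨f1, c, f2⟩ := H_spec hr hd i2 hdefk
      have f3 := d_mul_T_of_not_dvd hr hd i2
      have hd0 : (0 : ℤ) < d := by exact_mod_cast (by omega : 0 < d)
      have hTpos : 0 < T d m r y := by
        by_contra hcon
        push Not at hcon
        nlinarith
      have hc1 : (1 : ℤ) ≤ (d : ℤ) ^ c := one_le_pow₀ (by omega)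
      have hHpos : 0 < H d m r y := by
        by_contra hcon
        push Not at hcon
        nlinarith
      have hHT : H d m r y ≤ T d m r y := by rw [f2]; nlinarith
      have hTlt : T d m r y < y := by
        by_contra hcon
        push Not at hcon
        nlinarith
      refine ⟨?_, ?_, ?_⟩
      · intro i hi
        rcases Nat.lt_succ_iff_lt_or_eq.mp hi with h | h
        · exact i1 i h
        · rw [h]; exact hdefk
      · rw [Function.iterate_succ_apply']; exact f1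
      · rw [Function.iterate_succ_apply', ← hy]
        push_cast
        omega
  obtain ⟨i1, i2, i3⟩ := hdef (n.toNat + 1)
  have h5 := h4 _ i1
  have h6 : (0 : ℝ) < ((H d m r)^[n.toNat + 1] n : ℝ) := by
    have : (0 : ℝ) ≤ B := by positivity
    linarith
  have h7 : (0 : ℤ) < (H d m r)^[n.toNat + 1] n := by exact_mod_cast h6
  push_cast at i3
  rw [Int.toNat_of_nonneg h1.le] at i3
  omega

/-- The main estimate for `H`. -/
theorem main_H {d m : ℕ} (hd : 2 ≤ d) (hm1 : 1 ≤ m) (hco : Nat.Coprime m d)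
    {r : ℤ → ℤ} (hr : Admissible d m r)
    {δ : ℝ} (hδ0 : 0 < δ)
    (hfinal : d < m → ∃ C : ℝ, 0 < C ∧ ∀ x z : ℝ, 1 ≤ x → 1 ≤ z →
      ({n : ℤ | 0 < n ∧ (n : ℝ) ≤ x ∧ ∀ k : ℕ, z < ((T d m r)^[k] n : ℝ)}.ncard : ℝ) ≤
        C * x * z ^ (-δ)) :
    ∃ C : ℝ, 0 < C ∧ ∀ x z : ℝ, 1 ≤ x → 1 ≤ z →
        ((High d m r z x).ncard : ℝ) ≤ C * x * z ^ (-δ) := by
  obtain ⟨B, hB1, hB⟩ := exists_bound d r
  have hB1' : (1 : ℝ) ≤ B := by exact_mod_cast hB1
  -- the trivial range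
  have htriv : ∀ x z : ℝ, 1 ≤ x → 1 ≤ z → z < B →
      ((High d m r z x).ncard : ℝ) ≤ (B : ℝ) ^ δ * x * z ^ (-δ) := by
    intro x z hx hz hzB
    have hz0 : 0 < z := by linarith
    have h1 : ((High d m r z x).ncard : ℝ) ≤ x := ncard_high_le (by linarith)
    have h2 : 1 ≤ (B : ℝ) ^ δ * z ^ (-δ) := by
      rw [Real.rpow_neg hz0.le, ← div_eq_mul_inv, one_le_div (by positivity)]
      exact Real.rpow_le_rpow hz0.le hzB.le hδ0.le
    calc ((High d m r z x).ncard : ℝ) ≤ x := h1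
      _ = 1 * x := (one_mul x).symm
      _ ≤ ((B : ℝ) ^ δ * z ^ (-δ)) * x := by gcongr
      _ = _ := by ring
  rcases lt_trichotomy m d with hmd | hmd | hmd
  · refine ⟨(B : ℝ) ^ δ, by positivity, fun x z hx hz => ?_⟩
    rcases lt_or_ge z B with hzB | hzB
    · exact htriv x z hx hz hzB
    · rw [small_m hd hm1 hmd hr hB hzB]
      simp only [Set.ncard_empty, Nat.cast_zero]
      positivity
  · rw [hmd, Nat.coprime_self] at hco
    omega
  · obtain ⟨C, hC0, hC⟩ := hfinal hmd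
    refine ⟨C + (B : ℝ) ^ δ, by positivity, fun x z hx hz => ?_⟩
    have hz0 : 0 < z := by linarith
    rcases lt_or_ge z B with hzB | hzB
    · refine (htriv x z hx hz hzB).trans ?_
      gcongr
      linarith
    · have h1 := hC x z hx hz
      have hsub : High d m r z x ⊆
          {n : ℤ | 0 < n ∧ (n : ℝ) ≤ x ∧ ∀ k : ℕ, z < ((T d m r)^[k] n : ℝ)} := by
        rintro n ⟨a1, a2, a3, a4⟩
        exact ⟨a1, a2, H_to_T hr hd (by omega) hB hzB a3 a4⟩
      have hfin : {n : ℤ | 0 < n ∧ (n : ℝ) ≤ x ∧ ∀ k : ℕ, z < ((T d m r)^[k] n : ℝ)}.Finite := by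
        refine (Finset.finite_toSet (Finset.Icc (1 : ℤ) ⌊x⌋)).subset ?_
        rintro n ⟨a1, a2, _⟩
        rw [Finset.mem_coe, Finset.mem_Icc]
        exact ⟨a1, Int.le_floor.2 a2⟩
      have h2 : ((High d m r z x).ncard : ℝ) ≤
          ({n : ℤ | 0 < n ∧ (n : ℝ) ≤ x ∧ ∀ k : ℕ, z < ((T d m r)^[k] n : ℝ)}.ncard : ℝ) := by
        exact_mod_cast Set.ncard_le_ncard hsub hfin
      refine h2.trans (h1.trans ?_)
      gcongr
      have : 0 ≤ (B : ℝ) ^ δ := by positivity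
      linarith

/-- The bound for the orbits under `T`, with an exponent better than `1 - η`. -/
theorem final_all (d m : ℕ) (hd : 2 ≤ d) (hdm : d < m) (hco : Nat.Coprime m d)
    (hm : (m : ℝ) ≤ (d : ℝ) ^ ((d : ℝ) / ((d : ℝ) - 1))) :
    ∃ δ₀ : ℝ, 1 - eta d m < δ₀ ∧ ∀ r : ℤ → ℤ, Admissible d m r → ∀ δ : ℝ, δ ≤ δ₀ →
      ∃ C : ℝ, 0 < C ∧ ∀ x z : ℝ, 1 ≤ x → 1 ≤ z →
        ({n : ℤ | 0 < n ∧ (n : ℝ) ≤ x ∧ ∀ k : ℕ, z < ((T d m r)^[k] n : ℝ)}.ncard : ℝ) ≤
          C * x * z ^ (-δ) := by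
  obtain ⟨η₁, δ, h1, h2, h3, h4⟩ := Pool.Agent.Helper28.BE.core hd hdm hco hm
  obtain ⟨η₂, h5, h6, h7⟩ := Pool.Agent.Helper28.BE.final_beyond hd hdm hco hm h1 h2
    (by norm_num : (0 : ℝ) < 1 / 400) (by norm_num) h3
  refine ⟨1 - η₂, by linarith, fun r hr δ' hδ' => ?_⟩
  obtain ⟨C, hC0, hC⟩ := h7 r hr (h4 r hr)
  refine ⟨C, hC0, fun x z hx hz => (hC x z hx hz).trans ?_⟩
  refine mul_le_mul_of_nonneg_left ?_ (by positivity)
  exact Real.rpow_le_rpow_of_exponent_le hz (by linarith)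

/-- The density of the orbits which stay above `z` and the finiteness of `E`. -/
theorem finite_iff {d m : ℕ} (hd : 2 ≤ d) (hm1 : 1 ≤ m) (hco : Nat.Coprime m d)
    (hm : (m : ℝ) ≤ (d : ℝ) ^ ((d : ℝ) / ((d : ℝ) - 1))) {r : ℤ → ℤ} (hr : Admissible d m r) :
    (E d m r).Finite ↔ ∀ ε : ℝ, 0 < ε → ∃ z₀ : ℝ, ∀ z : ℝ, z₀ ≤ z → ∀ X : ℝ, ∃ x : ℝ, X ≤ x ∧
      ((High d m r z x).ncard : ℝ) ≤ ε * x / z := by
  constructor
  · intro hE ε hε
    obtain ⟨z₀, hz₀, h1⟩ := Pool.Agent.Helper33.MO.highS_empty hd hr hE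
    refine ⟨z₀, fun z hz X => ⟨max X 0, le_max_left _ _, ?_⟩⟩
    have h2 : High d m r z (max X 0) = ∅ := h1 z (max X 0) hz
    rw [h2, Set.ncard_empty, Nat.cast_zero]
    have h3 : 0 < z := by linarith
    have h4 : (0 : ℝ) ≤ max X 0 := le_max_right _ _
    positivity
  · intro hH
    rcases lt_trichotomy m d with hmd | hmd | hmd
    · -- `m < d`: no orbit stays above `B`
      obtain ⟨B, hB1, hB⟩ := exists_bound d r
      refine (Set.finite_Icc (1 : ℤ) (B + 1)).subset fun e he => ?_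
      have he0 : 0 < e := he.1
      refine ⟨he0, ?_⟩
      by_contra hcon
      push Not at hcon
      have h1 : e ∈ High d m r ((e : ℝ) - 1) e := by
        refine ⟨he0, le_rfl, he.2.1, fun k hk => ?_⟩
        have h2 : (e : ℝ) ≤ ((H d m r)^[k] e : ℝ) := by exact_mod_cast he.2.2 k hk
        linarith
      have h2 : (B : ℝ) ≤ (e : ℝ) - 1 := by
        have : ((B : ℤ) + 1 : ℤ) ≤ e := hcon.le
        have h3 : ((B : ℤ) : ℝ) + 1 ≤ (e : ℝ) := by exact_mod_cast this
        push_cast at h3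
        linarith
      rw [small_m hd hm1 hmd hr hB h2] at h1
      exact h1
    · rw [hmd, Nat.coprime_self] at hco
      omega
    · exact Pool.Agent.Helper33.MO.finite_of_density ⟨hd, hmd, hco, hm, hr⟩ hH

/-- **The orbits which stay above `z`: their number, and the threshold at which it decides Möller's conjecture.** -/
theorem result (d m : ℕ) (hd : 2 ≤ d) (hm1 : 1 ≤ m) (hco : Nat.Coprime m d)
    (hm : (m : ℝ) ≤ (d : ℝ) ^ ((d : ℝ) / ((d : ℝ) - 1))) :
    ∃ δ : ℝ, 0 < δ ∧ (d < m → 0 < 1 - eta d m ∧ 1 - eta d m < δ) ∧ ∀ r : ℤ → ℤ, Admissible d m r →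
      (∃ C : ℝ, ∀ x z : ℝ, 1 ≤ x → 1 ≤ z → ((High d m r z x).ncard : ℝ) ≤ C * x * z ^ (-δ)) ∧
      ((E d m r).Finite ↔ ∀ ε : ℝ, 0 < ε → ∃ z₀ : ℝ, ∀ z : ℝ, z₀ ≤ z → ∀ X : ℝ, ∃ x : ℝ, X ≤ x ∧
        ((High d m r z x).ncard : ℝ) ≤ ε * x / z) := by
  obtain ⟨δ, hδ0, hδ1, hall⟩ : ∃ δ : ℝ, 0 < δ ∧ (d < m → 0 < 1 - eta d m ∧ 1 - eta d m < δ) ∧
      ∀ r : ℤ → ℤ, Admissible d m r → d < m →
        ∃ C : ℝ, 0 < C ∧ ∀ x z : ℝ, 1 ≤ x → 1 ≤ z →
        ({n : ℤ | 0 < n ∧ (n : ℝ) ≤ x ∧ ∀ k : ℕ, z < ((T d m r)^[k] n : ℝ)}.ncard : ℝ) ≤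
          C * x * z ^ (-δ) := by
    by_cases h : d < m
    · obtain ⟨δ, h1, h2⟩ := final_all d m hd h hco hm
      have h3 := eta_lt_one hd h hco hm
      exact ⟨δ, by linarith, fun _ => ⟨by linarith, h1⟩, fun r hr _ => h2 r hr δ le_rfl⟩
    · exact ⟨1, one_pos, fun h' => absurd h' h, fun r hr h' => absurd h' h⟩
  refine ⟨δ, hδ0, hδ1, fun r hr => ⟨?_, finite_iff hd hm1 hco hm hr⟩⟩
  obtain ⟨C, _, hC⟩ := main_H hd hm1 hco hr hδ0 (hall r hr)
  exact ⟨C, hC⟩

end Pool.Agent.Helper33.FIN.AlmostAll
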